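import Mathlib

/-!
A symmetric doubly stochastic `4 × 4` matrix of trace one, determined by its spectrum, which
lies on none of the segments `[I,C]`, `[I,P]`, `[C,P]` with `P` a vertex.
-/

namespace Pool.Agent.Results.MP_3aa442_co.DSCounterexample

open Matrix

/-- The polytope of symmetric doubly stochastic `n × n` matrices. -/
def Delta (n : ℕ) : Set (Matrix (Fin n) (Fin n) ℝ) :=
  {A | (∀ i j, 0 ≤ A i j) ∧ (∀ i, ∑ j, A i j = 1) ∧ (∀ j, ∑ i, A i j = 1) ∧ Aᵀ = A}

/-- The matrix `C_n`: zero diagonal and every other entry `1/(n-1)`. -/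
noncomputable def Cmat (n : ℕ) : Matrix (Fin n) (Fin n) ℝ :=
  fun i j => if i = j then 0 else 1 / ((n : ℝ) - 1)

/-- `A` and `B` are similar. -/
def Similar {n : ℕ} (A B : Matrix (Fin n) (Fin n) ℝ) : Prop :=
  ∃ S T : Matrix (Fin n) (Fin n) ℝ, S * T = 1 ∧ T * S = 1 ∧ B = T * A * S

/-- `A` and `B` are permutationally similar. -/
def PermSimilar {n : ℕ} (A B : Matrix (Fin n) (Fin n) ℝ) : Prop :=
  ∃ σ : Equiv.Perm (Fin n), B = (σ.permMatrix ℝ)ᵀ * A * σ.permMatrix ℝ

/-- `A` is determined by its spectrum in `Delta n`. -/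
def IsDS {n : ℕ} (A : Matrix (Fin n) (Fin n) ℝ) : Prop :=
  ∀ B ∈ Delta n, Similar A B → PermSimilar A B

/-- The counterexample. -/
noncomputable def A0 : Matrix (Fin 4) (Fin 4) ℝ :=
  !![0, 1, 0, 0; 1, 0, 0, 0; 0, 0, 1/2, 1/2; 0, 0, 1/2, 1/2]

theorem A0_mem : A0 ∈ Delta 4 := by
  refine ⟨?_, ?_, ?_, ?_⟩
  · intro i j
    fin_cases i <;> fin_cases j <;> simp [A0]
  · intro i
    rw [Fin.sum_univ_four]
    fin_cases i <;> simp [A0] <;> norm_num
  · intro i
    rw [Fin.sum_univ_four]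
    fin_cases i <;> simp [A0] <;> norm_num
  · ext i j
    fin_cases i <;> fin_cases j <;> simp [A0]

theorem A0_trace : A0.trace = 1 := by
  simp [Matrix.trace, Fin.sum_univ_four, A0]
  norm_num

/-- `A0` is not a vertex. -/
theorem A0_not_extreme : A0 ∉ (Delta 4).extremePoints ℝ := by
  intro h
  rw [mem_extremePoints] at h
  set X : Matrix (Fin 4) (Fin 4) ℝ := !![0, 1, 0, 0; 1, 0, 0, 0; 0, 0, 1, 0; 0, 0, 0, 1] with hX
  set Y : Matrix (Fin 4) (Fin 4) ℝ := !![0, 1, 0, 0; 1, 0, 0, 0; 0, 0, 0, 1; 0, 0, 1, 0] with hY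
  have hXm : X ∈ Delta 4 := by
    refine ⟨?_, ?_, ?_, ?_⟩
    · intro i j
      fin_cases i <;> fin_cases j <;> simp [X]
    · intro i
      rw [Fin.sum_univ_four]
      fin_cases i <;> simp [X]
    · intro i
      rw [Fin.sum_univ_four]
      fin_cases i <;> simp [X]
    · ext i j
      fin_cases i <;> fin_cases j <;> simp [X]
  have hYm : Y ∈ Delta 4 := by
    refine ⟨?_, ?_, ?_, ?_⟩
    · intro i j
      fin_cases i <;> fin_cases j <;> simp [Y]
    · intro i
      rw [Fin.sum_univ_four]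
      fin_cases i <;> simp [Y]
    · intro i
      rw [Fin.sum_univ_four]
      fin_cases i <;> simp [Y]
    · ext i j
      fin_cases i <;> fin_cases j <;> simp [Y]
  have hmem : A0 ∈ openSegment ℝ X Y := by
    refine ⟨1/2, 1/2, by norm_num, by norm_num, by norm_num, ?_⟩
    ext i j
    fin_cases i <;> fin_cases j <;> simp [A0, X, Y] <;> norm_num
  have h2 := (h.2 X hXm Y hYm hmem).1
  have h3 := congrFun (congrFun h2 2) 3
  simp [X, A0] at h3

theorem perm_exists (i j : Fin 4) (h : i ≠ j) : ∃ σ : Equiv.Perm (Fin 4), σ 0 = i ∧ σ 1 = j := by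
  revert i j
  decide

theorem submatrix_perm {n : ℕ} (A B : Matrix (Fin n) (Fin n) ℝ) (σ : Equiv.Perm (Fin n))
    (h : ∀ i j, B (σ i) (σ j) = A i j) : PermSimilar A B := by
  refine ⟨σ, ?_⟩
  rw [Matrix.transpose_permMatrix, PEquiv.toMatrix_toPEquiv_mul, PEquiv.mul_toMatrix_toPEquiv]
  ext i j
  rw [Matrix.submatrix_apply, Matrix.submatrix_apply]
  have := h (σ.symm i) (σ.symm j)
  rw [Equiv.apply_symm_apply, Equiv.apply_symm_apply] at this
  rw [this]
  rfl

/-- A symmetric doubly stochastic `4 × 4` matrix with trace one and eigenvalue `-1` is a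
permuted copy of `A0`. -/
theorem key (B : Matrix (Fin 4) (Fin 4) ℝ) (hB : B ∈ Delta 4) (htr : B.trace = 1)
    (v : Fin 4 → ℝ) (hv : v ≠ 0) (hBv : ∀ i, ∑ j, B i j * v j = - v i) : PermSimilar A0 B := by
  obtain ⟨hnn, hr, hc, hs⟩ := hB
  have hsym : ∀ i j, B i j = B j i := by
    intro i j
    have := congrFun (congrFun hs j) i
    rw [Matrix.transpose_apply] at this
    exact this
  obtain ⟨i, -, hi⟩ := Finset.exists_max_image (Finset.univ : Finset (Fin 4)) (fun i => |v i|)
    ⟨0, Finset.mem_univ _⟩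
  have hvi : v i ≠ 0 := by
    intro h0
    apply hv
    ext j
    have := hi j (Finset.mem_univ _)
    rw [h0, abs_zero] at this
    exact abs_nonpos_iff.1 this
  set w : Fin 4 → ℝ := fun j => v j / v i with hw
  have hwi : w i = 1 := by
    rw [hw]
    exact div_self hvi
  have hBw : ∀ k, ∑ j, B k j * w j = - w k := by
    intro k
    have : ∑ j, B k j * w j = (∑ j, B k j * v j) / v i := by
      rw [Finset.sum_div]
      apply Finset.sum_congr rfl
      intro j _
      rw [hw]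
      ring
    rw [this, hBv, hw]
    ring
  have hwabs : ∀ j, |w j| ≤ 1 := by
    intro j
    rw [hw]
    simp only
    rw [abs_div]
    exact div_le_one_of_le₀ (hi j (Finset.mem_univ _)) (abs_nonneg _)
  have hw1 : ∀ j, w j ≤ 1 := fun j => (abs_le.1 (hwabs j)).2
  have hw2 : ∀ j, -1 ≤ w j := fun j => (abs_le.1 (hwabs j)).1
  -- rows at a maximum
  have hmax : ∀ k, w k = 1 → ∀ j, B k j * (1 + w j) = 0 := by
    intro k hk j
    have h1 : ∑ j, B k j * (1 + w j) = 0 := by
      simp only [mul_add, mul_one, Finset.sum_add_distrib]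
      rw [hr, hBw, hk]
      ring
    exact (Finset.sum_eq_zero_iff_of_nonneg (fun j _ =>
      mul_nonneg (hnn k j) (by linarith [hw2 j]))).1 h1 j (Finset.mem_univ _)
  have hmin : ∀ k, w k = -1 → ∀ j, B k j * (1 - w j) = 0 := by
    intro k hk j
    have h1 : ∑ j, B k j * (1 - w j) = 0 := by
      simp only [mul_sub, mul_one, Finset.sum_sub_distrib]
      rw [hr, hBw, hk]
      ring
    exact (Finset.sum_eq_zero_iff_of_nonneg (fun j _ =>
      mul_nonneg (hnn k j) (by linarith [hw1 j]))).1 h1 j (Finset.mem_univ _)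
  obtain ⟨j, hj⟩ : ∃ j, B i j ≠ 0 := by
    by_contra hcon
    push Not at hcon
    have := hr i
    simp only [hcon, Finset.sum_const_zero] at this
    exact zero_ne_one this
  have hwj : w j = -1 := by
    have := hmax i hwi j
    rcases mul_eq_zero.1 this with h | h
    · exact absurd h hj
    · linarith
  have hij : i ≠ j := by
    intro h
    rw [← h, hwi] at hwj
    norm_num at hwj
  obtain ⟨σ, hσ0, hσ1⟩ := perm_exists i j hij
  have hsum : ∀ f : Fin 4 → ℝ, ∑ m, f m = f (σ 0) + f (σ 1) + f (σ 2) + f (σ 3) := by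
    intro f
    rw [← Equiv.sum_comp σ f, Fin.sum_univ_four]
  have Tr : B (σ 0) (σ 0) + B (σ 1) (σ 1) + B (σ 2) (σ 2) + B (σ 3) (σ 3) = 1 := by
    rw [← htr, Matrix.trace, hsum]
    rfl
  have R0 := hr (σ 0)
  have R1 := hr (σ 1)
  have R2 := hr (σ 2)
  have R3 := hr (σ 3)
  rw [hsum] at R0 R1 R2 R3
  have s10 := hsym (σ 1) (σ 0)
  have s20 := hsym (σ 2) (σ 0)
  have s30 := hsym (σ 3) (σ 0)
  have s21 := hsym (σ 2) (σ 1)
  have s31 := hsym (σ 3) (σ 1)
  have s32 := hsym (σ 3) (σ 2)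
  rw [← hσ0] at hwi
  rw [← hσ1] at hwj
  have a00 : B (σ 0) (σ 0) = 0 := by
    have := hmax _ hwi (σ 0)
    rw [hwi] at this
    linarith
  have a11 : B (σ 1) (σ 1) = 0 := by
    have := hmin _ hwj (σ 1)
    rw [hwj] at this
    linarith
  have n02 := hnn (σ 0) (σ 2)
  have n03 := hnn (σ 0) (σ 3)
  have n12 := hnn (σ 1) (σ 2)
  have n13 := hnn (σ 1) (σ 3)
  have n23 := hnn (σ 2) (σ 3)
  have n22 := hnn (σ 2) (σ 2)
  have n33 := hnn (σ 3) (σ 3)
  have n01 := hnn (σ 0) (σ 1)
  have a02 : B (σ 0) (σ 2) = 0 := by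
    by_contra hne
    have hw2' : w (σ 2) = -1 := by
      rcases mul_eq_zero.1 (hmax _ hwi (σ 2)) with h | h
      · exact absurd h hne
      · linarith
    have b22 : B (σ 2) (σ 2) = 0 := by
      have := hmin _ hw2' (σ 2)
      rw [hw2'] at this
      linarith
    have b12 : B (σ 1) (σ 2) = 0 := by
      have := hmin _ hwj (σ 2)
      rw [hw2'] at this
      linarith
    have b33 : B (σ 3) (σ 3) = 1 := by linarith
    have : B (σ 1) (σ 3) = 0 := by linarith
    have : B (σ 0) (σ 1) = 1 := by linarith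
    have : B (σ 0) (σ 2) = 0 := by linarith
    exact hne this
  have a03 : B (σ 0) (σ 3) = 0 := by
    by_contra hne
    have hw3' : w (σ 3) = -1 := by
      rcases mul_eq_zero.1 (hmax _ hwi (σ 3)) with h | h
      · exact absurd h hne
      · linarith
    have b33 : B (σ 3) (σ 3) = 0 := by
      have := hmin _ hw3' (σ 3)
      rw [hw3'] at this
      linarith
    have b13 : B (σ 1) (σ 3) = 0 := by
      have := hmin _ hwj (σ 3)
      rw [hw3'] at this
      linarith
    have b22 : B (σ 2) (σ 2) = 1 := by linarith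
    have : B (σ 1) (σ 2) = 0 := by linarith
    have : B (σ 0) (σ 1) = 1 := by linarith
    have : B (σ 0) (σ 3) = 0 := by linarith
    exact hne this
  have a01 : B (σ 0) (σ 1) = 1 := by linarith
  have a12 : B (σ 1) (σ 2) = 0 := by linarith
  have a13 : B (σ 1) (σ 3) = 0 := by linarith
  have a22 : B (σ 2) (σ 2) = 1/2 := by linarith
  have a33 : B (σ 3) (σ 3) = 1/2 := by linarith
  have a23 : B (σ 2) (σ 3) = 1/2 := by linarith
  apply submatrix_perm A0 B σ
  intro k l
  fin_cases k <;> fin_cases l <;> simp [A0] <;> linarith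

theorem A0_DS : IsDS A0 := by
  rintro B hB ⟨S, T, hST, hTS, hBT⟩
  have htr : B.trace = 1 := by
    rw [hBT, Matrix.trace_mul_comm, ← Matrix.mul_assoc, hST, Matrix.one_mul, A0_trace]
  set u : Fin 4 → ℝ := ![1, -1, 0, 0] with hu
  have hAu : A0 *ᵥ u = -u := by
    ext i
    fin_cases i <;> simp [A0, u, Matrix.mulVec, dotProduct, Fin.sum_univ_four]
  apply key B hB htr (T *ᵥ u)
  · intro h0
    have h1 : S *ᵥ (T *ᵥ u) = u := by
      rw [Matrix.mulVec_mulVec, hST, Matrix.one_mulVec]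
    rw [h0, Matrix.mulVec_zero] at h1
    have := congrFun h1 0
    simp [u] at this
  · have h1 : B *ᵥ (T *ᵥ u) = -(T *ᵥ u) := by
      rw [hBT, Matrix.mulVec_mulVec, Matrix.mul_assoc, hST, Matrix.mul_one,
        ← Matrix.mulVec_mulVec, hAu, Matrix.mulVec_neg]
    intro i
    exact congrFun h1 i

/-- The assertion of Q1 fails. -/
theorem result : ¬ ∀ n : ℕ, 2 ≤ n → ∀ a : ℝ, 0 < a → a ≤ n →
    ∀ A : Matrix (Fin n) (Fin n) ℝ, A ∈ Delta n → A.trace = a → IsDS A →
      A ∈ segment ℝ (1 : Matrix (Fin n) (Fin n) ℝ) (Cmat n) ∨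
      ∃ P ∈ (Delta n).extremePoints ℝ,
        A ∈ segment ℝ (1 : Matrix (Fin n) (Fin n) ℝ) P ∨ A ∈ segment ℝ (Cmat n) P := by
  intro h
  have h1 := h 4 (by norm_num) 1 (by norm_num) (by norm_num) A0 A0_mem A0_trace A0_DS
  rcases h1 with ⟨a, b, ha, hb, hab, hA⟩ | ⟨P, hP, ⟨a, b, ha, hb, hab, hA⟩ | ⟨a, b, ha, hb, hab, hA⟩⟩
  · have e1 := congrFun (congrFun hA 0) 1
    have e2 := congrFun (congrFun hA 0) 2
    simp [A0, Cmat] at e1 e2
    rcases e2 with e2 | e2
    · rw [e2] at e1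
      norm_num at e1
    · norm_num at e2
  · have e1 := congrFun (congrFun hA 0) 0
    simp [A0] at e1
    have hP0 := hP.1.1 0 0
    have ha0 : a = 0 := by
      have := mul_nonneg hb hP0
      linarith
    have hb1 : b = 1 := by linarith
    rw [ha0, hb1, zero_smul, zero_add, one_smul] at hA
    rw [hA] at hP
    exact A0_not_extreme hP
  · have e1 := congrFun (congrFun hA 0) 2
    simp [A0, Cmat] at e1
    have hP0 := hP.1.1 0 2
    have ha0 : a = 0 := by
      have := mul_nonneg hb hP0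
      have h3 : (0:ℝ) < (4 - 1 : ℝ)⁻¹ := by norm_num
      nlinarith
    have hb1 : b = 1 := by linarith
    rw [ha0, hb1, zero_smul, zero_add, one_smul] at hA
    rw [hA] at hP
    exact A0_not_extreme hP

end Pool.Agent.Results.MP_3aa442_co.DSCounterexample
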